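import Pool.Agent.Run7.h376.G.Cor

/-!
# Project VAR, piece GCM: one block
-/

set_option autoImplicit false

namespace Run7.h376.V

open Finset Filter Topology
open Run7.h285.S (gg)
open Run7.h376.CGS
open Run7.h376.G (icc_shift')
open Pool.Agent.TH892.SW (ff ffn wt wt_nonneg wt_le wt_anti pp_sum lamz_le)
open Pool.Agent.H373R2.T7 (lamz Vz lamI lamzI lamz_nonneg)

/-- the splitting of the mixed correlation in an interval, any shift -/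
theorem split0 {z N : ℕ} {a b D : ℤ} (hb : b ≤ N) (ha : -a ≤ N) (F : ℤ → ℝ) (hF0 : F 0 = 0) :
    ∑ k ∈ Icc a b, F k * gg z (k + D) =
      ∑ t ∈ Icc 1 N, (if (t : ℤ) ∈ Icc a b then F t else 0) * ff z ((t : ℤ) + 1 * D) +
      ∑ t ∈ Icc 1 N, (if (t : ℤ) ∈ Icc a b then F t else 0) * ff z (-D - (t : ℤ)) +
      ∑ t ∈ Icc 1 N, (if -(t : ℤ) ∈ Icc a b then F (-(t : ℤ)) else 0) * ff z ((t : ℤ) + -1 * D) +
      ∑ t ∈ Icc 1 N, (if -(t : ℤ) ∈ Icc a b then F (-(t : ℤ)) else 0) * ff z (D - (t : ℤ)) := by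
  have h1 : ∑ k ∈ Icc a b, F k * gg z (k + D) = ∑ k ∈ Icc a b, (if 0 < k then F k else 0) * gg z (k + D) +
      ∑ k ∈ Icc a b, (if k < 0 then F k else 0) * gg z (k + D) := by
    rw [← sum_add_distrib]
    apply sum_congr rfl
    intro k _
    rcases lt_trichotomy k 0 with h | h | h
    · rw [if_neg (by omega), if_pos h]; ring
    · rw [h, hF0]; simp
    · rw [if_pos h, if_neg (by omega)]; ring
  have h2 : ∑ k ∈ Icc a b, (if k < 0 then F k else 0) * gg z (k + D) =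
      ∑ k ∈ Icc (-b) (-a), (if 0 < k then F (-k) else 0) * gg z (-k + D) := by
    apply sum_nbij' (fun k => -k) (fun k => -k)
    · intro k hk; rw [mem_Icc] at hk ⊢; constructor <;> omega
    · intro k hk; rw [mem_Icc] at hk ⊢; constructor <;> omega
    · intro k _; ring
    · intro k _; ring
    · intro k _
      rw [neg_neg]
      congr 1
      by_cases h : k < 0
      · rw [if_pos h, if_pos (by omega)]
      · rw [if_neg h, if_neg (by omega)]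
  rw [h1, h2, sum_nat hb (fun k => (if 0 < k then F k else 0) * gg z (k + D)) (fun k hk => by rw [if_neg (by omega), zero_mul]),
    sum_nat ha (fun k => (if 0 < k then F (-k) else 0) * gg z (-k + D)) (fun k hk => by rw [if_neg (by omega), zero_mul]), add_assoc
      (∑ t ∈ Icc 1 N, (if (t : ℤ) ∈ Icc a b then F t else 0) * ff z ((t : ℤ) + 1 * D) +
      ∑ t ∈ Icc 1 N, (if (t : ℤ) ∈ Icc a b then F t else 0) * ff z (-D - (t : ℤ)))]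
  congr 1
  · rw [← sum_add_distrib]
    apply sum_congr rfl
    intro t ht
    rw [mem_Icc] at ht
    split_ifs with h h'
    · have : gg z ((t : ℤ) + D) = ff z ((t : ℤ) + 1 * D) + ff z (-D - (t : ℤ)) := by
        unfold gg
        congr 2 <;> ring
      rw [this]; ring
    · exact absurd (by omega : (0 : ℤ) < t) h'
    · ring
  · rw [← sum_add_distrib]
    apply sum_congr rfl
    intro t ht
    rw [mem_Icc] at ht
    have hiff : (t : ℤ) ∈ Icc (-b) (-a) ↔ -(t : ℤ) ∈ Icc a b := by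
      rw [mem_Icc, mem_Icc]; omega
    by_cases h : -(t : ℤ) ∈ Icc a b
    · rw [if_pos (hiff.2 h), if_pos h, if_pos (by omega : (0 : ℤ) < t)]
      have : gg z (-(t : ℤ) + D) = ff z ((t : ℤ) + -1 * D) + ff z (D - (t : ℤ)) := by
        unfold gg
        rw [add_comm]
        congr 2 <;> ring
      rw [this]; ring
    · rw [if_neg (fun h' => h (hiff.1 h')), if_neg h]; ring

/-- the crossed terms -/
theorem cross {z : ℕ} (N : ℕ) {L : ℝ} (hL : 0 ≤ L) (hff : ∀ y : ℤ, |ff z y| ≤ 3 * L) (w : ℕ → ℝ)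
    (hw : ∀ t, |w t| ≤ 1) (D : ℤ) :
    |∑ t ∈ Icc 1 N, w t * ff z (D - (t : ℤ))| ≤ 3 * L * |(D : ℝ)| := by
  calc _ ≤ ∑ t ∈ Icc 1 N, |w t * ff z (D - (t : ℤ))| :=
        abs_sum_le_sum_abs _ _
    _ ≤ ∑ t ∈ Icc 1 N, (if (t : ℤ) ≤ D then 3 * L else 0) := by
        apply sum_le_sum
        intro t _
        split_ifs with h7
        · rw [abs_mul]
          have := mul_le_mul (hw t) (hff (D - t)) (abs_nonneg _) zero_le_one
          linarith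
        · rw [ff_neg (y := D - t) (by omega), mul_zero, abs_zero]
    _ ≤ ∑ t ∈ Icc 1 D.toNat, 3 * L := by
        rw [← sum_filter]
        apply sum_le_sum_of_subset_of_nonneg
        · intro t ht
          rw [mem_filter, mem_Icc] at ht
          rw [mem_Icc]
          omega
        · intro t _ _
          positivity
    _ = D.toNat * (3 * L) := by
        rw [sum_const, Nat.card_Icc, nsmul_eq_mul, Nat.add_sub_cancel]
    _ ≤ |(D : ℝ)| * (3 * L) := by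
        apply mul_le_mul_of_nonneg_right _ (by positivity)
        have h1 : ((D.toNat : ℕ) : ℤ) ≤ |D| := by
          rw [Int.toNat_eq_max]
          exact max_le (le_abs_self D) (abs_nonneg D)
        have h2 : (((D.toNat : ℕ) : ℤ) : ℝ) ≤ ((|D| : ℤ) : ℝ) := by exact_mod_cast h1
        rw [Int.cast_natCast, Int.cast_abs] at h2
        exact h2
    _ = _ := by ring

theorem cor_mix0 {z N X : ℕ} {c₀ c₁ c₂ : ℤ} (hz : 1 ≤ z) {L Dm Δ T : ℝ} (hL : 1 ≤ L)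
    (hff : ∀ y : ℤ, |ff z y| ≤ 3 * L) (hV : (Vz z)⁻¹ ≤ L) (hN : 2 ≤ N)
    (hNX : |c₀| + X ≤ N) (hD : |((c₂ - c₁ : ℤ) : ℝ)| ≤ Dm) (hΔ : |((c₁ - c₀ : ℤ) : ℝ)| ≤ Δ)
    (hDN : Dm ≤ N) (hT : Dm + 4 ≤ T) (F : ℤ → ℝ) (hF : ∀ y, |F y| ≤ 1) (hF0 : F 0 = 0) :
    |∑ c ∈ Icc (-(X : ℤ)) X, F (c₁ + c) * gg z (c₂ + c)| ≤ 12 * L ^ 2 * Δ + 18 * L ^ 2 * Dm + 6 * L * RR N Dm T L +
      |∑ t ∈ Icc 1 N, ((if (t : ℤ) ∈ Icc (c₀ - X) (c₀ + X) then F t else 0) * wt t) *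
        (lamI ((t : ℤ) + 1 * (c₂ - c₁)) - lamzI z ((t : ℤ) + 1 * (c₂ - c₁)))| +
      |∑ t ∈ Icc 1 N, ((if -(t : ℤ) ∈ Icc (c₀ - X) (c₀ + X) then F (-(t : ℤ)) else 0) * wt t) *
        (lamI ((t : ℤ) + -1 * (c₂ - c₁)) - lamzI z ((t : ℤ) + -1 * (c₂ - c₁)))| := by
  obtain ⟨D, hDdef⟩ : ∃ D : ℤ, D = c₂ - c₁ := ⟨_, rfl⟩
  obtain ⟨a, ha⟩ : ∃ a : ℤ, a = c₀ - X := ⟨_, rfl⟩
  obtain ⟨b, hb⟩ : ∃ b : ℤ, b = c₀ + X := ⟨_, rfl⟩
  rw [← ha, ← hb, ← hDdef]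
  rw [← hDdef] at hD
  have hDm0 : 0 ≤ Dm := (abs_nonneg _).trans hD
  have hL0 : (0 : ℝ) ≤ L := by linarith
  have hgg : ∀ k : ℤ, |gg z k| ≤ 6 * L := by
    intro k
    unfold gg
    refine (abs_add_le _ _).trans ?_
    have := hff (1 * k)
    have := hff (-1 * k)
    linarith
  obtain ⟨δ, hδ⟩ : ∃ δ : ℤ, δ = c₁ - c₀ := ⟨_, rfl⟩
  rw [← hδ] at hΔ
  have e1 : ∑ c ∈ Icc (-(X : ℤ)) X, F (c₁ + c) * gg z (c₂ + c) =
      ∑ k ∈ Icc (a + δ) (b + δ), F k * gg z (k + D) := by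
    apply sum_nbij' (fun c => c₁ + c) (fun k => k - c₁)
    · intro k hk
      rw [mem_Icc] at hk ⊢
      constructor <;> omega
    · intro k hk
      rw [mem_Icc] at hk ⊢
      constructor <;> omega
    · intro k _; ring
    · intro k _; ring
    · intro k _
      congr 2
      rw [hDdef]
      ring
  have h1 := icc_shift' (f := fun k => F k * gg z (k + D)) (Kf := 6 * L) (by
    intro k
    rw [abs_mul]
    have := mul_le_mul (hF k) (hgg (k + D)) (abs_nonneg _) zero_le_one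
    linarith) a b δ
  rw [← e1] at h1
  have hc0 := le_abs_self c₀
  have hc0' := neg_abs_le c₀
  have hbN : b ≤ N := by
    rw [hb]
    linarith
  have haN : -a ≤ N := by
    rw [ha]
    linarith
  have h2 := split0 (z := z) (D := D) hbN haN F hF0
  have hDabs : |((1 * D : ℤ) : ℝ)| ≤ Dm := by
    rw [one_mul]; exact hD
  have hDabs' : |((-1 * D : ℤ) : ℝ)| ≤ Dm := by
    rw [neg_one_mul, Int.cast_neg, abs_neg]; exact hD
  have b1 : ∀ t : ℕ, |if (t : ℤ) ∈ Icc a b then F t else 0| ≤ 1 := by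
    intro t
    split_ifs
    · exact hF _
    · rw [abs_zero]; exact zero_le_one
  have b2 : ∀ t : ℕ, |if -(t : ℤ) ∈ Icc a b then F (-(t : ℤ)) else 0| ≤ 1 := by
    intro t
    split_ifs
    · exact hF _
    · rw [abs_zero]; exact zero_le_one
  have h3 := rep1 hz hL0 hN hDabs hDN hT hV (fun t => if (t : ℤ) ∈ Icc a b then F t else 0) (by
    intro t
    have := b1 t
    linarith)
  have h4 := rep1 hz hL0 hN hDabs' hDN hT hV (fun t => if -(t : ℤ) ∈ Icc a b then F (-(t : ℤ)) else 0) (by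
    intro t
    have := b2 t
    linarith)
  have h5 := cross N hL0 hff (fun t => if -(t : ℤ) ∈ Icc a b then F (-(t : ℤ)) else 0) b2 D
  have h5' := cross N hL0 hff (fun t => if (t : ℤ) ∈ Icc a b then F t else 0) b1 (-D)
  rw [Int.cast_neg, abs_neg] at h5'
  have h9 : 3 * L * |(D : ℝ)| ≤ 9 * L ^ 2 * Dm := by
    have q1 : 3 * L * |(D : ℝ)| ≤ 3 * L * Dm := mul_le_mul_of_nonneg_left hD (by positivity)
    have q2 : 3 * L * Dm ≤ 9 * L ^ 2 * Dm := by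
      apply mul_le_mul_of_nonneg_right _ hDm0
      nlinarith
    exact q1.trans q2
  have h6 : |∑ k ∈ Icc a b, F k * gg z (k + D)| ≤
      |∑ t ∈ Icc 1 N, (if (t : ℤ) ∈ Icc a b then F t else 0) * ff z ((t : ℤ) + 1 * D)| +
      |∑ t ∈ Icc 1 N, (if (t : ℤ) ∈ Icc a b then F t else 0) * ff z (-D - (t : ℤ))| +
      |∑ t ∈ Icc 1 N, (if -(t : ℤ) ∈ Icc a b then F (-(t : ℤ)) else 0) * ff z ((t : ℤ) + -1 * D)| +
      |∑ t ∈ Icc 1 N, (if -(t : ℤ) ∈ Icc a b then F (-(t : ℤ)) else 0) * ff z (D - (t : ℤ))| := by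
    rw [h2]
    refine (abs_add_le _ _).trans (add_le_add ?_ le_rfl)
    refine (abs_add_le _ _).trans (add_le_add ?_ le_rfl)
    exact abs_add_le _ _
  have h7 : 2 * |(δ : ℝ)| * (6 * L) ≤ 12 * L ^ 2 * Δ := by
    have q0 : 0 ≤ |(δ : ℝ)| := abs_nonneg _
    have q1 : 2 * |(δ : ℝ)| * (6 * L) ≤ 2 * Δ * (6 * L) := by
      apply mul_le_mul_of_nonneg_right _ (by positivity)
      linarith
    have q2 : 2 * Δ * (6 * L) ≤ 12 * L ^ 2 * Δ := by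
      have q3 : 0 ≤ Δ := q0.trans hΔ
      have q4 : L ≤ L ^ 2 := le_self_pow₀ hL (by norm_num)
      nlinarith
    exact q1.trans q2
  have h8 := abs_add_le (∑ c ∈ Icc (-(X : ℤ)) X, F (c₁ + c) * gg z (c₂ + c) - ∑ k ∈ Icc a b, F k * gg z (k + D))
      (∑ k ∈ Icc a b, F k * gg z (k + D))
  rw [sub_add_cancel] at h8
  linarith

/-- the value at zero -/
theorem zero_val {z X : ℕ} {c₁ c₂ : ℤ} {L : ℝ} (hL : 1 ≤ L)
    (hff : ∀ y : ℤ, |ff z y| ≤ 3 * L) (F : ℤ → ℝ) (hF : ∀ y, |F y| ≤ 1) :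
    |∑ c ∈ Icc (-(X : ℤ)) X, F (c₁ + c) * gg z (c₂ + c) -
      ∑ c ∈ Icc (-(X : ℤ)) X, (if c₁ + c = 0 then 0 else F (c₁ + c)) * gg z (c₂ + c)| ≤ 6 * L := by
  have hgg : ∀ k : ℤ, |gg z k| ≤ 6 * L := by
    intro k
    unfold gg
    refine (abs_add_le _ _).trans ?_
    have := hff (1 * k)
    have := hff (-1 * k)
    linarith
  rw [← sum_sub_distrib]
  have h1 : ∀ c : ℤ, F (c₁ + c) * gg z (c₂ + c) - (if c₁ + c = 0 then 0 else F (c₁ + c)) * gg z (c₂ + c) =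
      if c = -c₁ then F (c₁ + c) * gg z (c₂ + c) else 0 := by
    intro c
    by_cases h : c₁ + c = 0
    · rw [if_pos h, if_pos (by omega)]; ring
    · rw [if_neg h, if_neg (by omega)]; ring
  simp only [h1]
  rw [sum_ite_eq']
  split_ifs
  · rw [abs_mul]
    have := mul_le_mul (hF (c₁ + -c₁)) (hgg (c₂ + -c₁)) (abs_nonneg _) zero_le_one
    linarith
  · rw [abs_zero]; linarith

/-- one block -/
theorem block_mix {z N X M₁ : ℕ} (c₀ : ℤ) (c₁ c₂ : ℕ → ℤ) (hz : 1 ≤ z) {L Dm Δ T Q : ℝ} (hL : 1 ≤ L)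
    (hff : ∀ y : ℤ, |ff z y| ≤ 3 * L) (hV : (Vz z)⁻¹ ≤ L) (hN : 2 ≤ N) (hM : 1 ≤ M₁)
    (hNX : |c₀| + X ≤ N)
    (hD : ∀ m ∈ Icc 1 M₁, |((c₂ m - c₁ m : ℤ) : ℝ)| ≤ Dm)
    (hΔ : ∀ m ∈ Icc 1 M₁, |((c₁ m - c₀ : ℤ) : ℝ)| ≤ Δ)
    (hDN : Dm ≤ N) (hT : Dm + 4 ≤ T) (F : ℤ → ℝ) (hF : ∀ y, |F y| ≤ 1)
    (hlaw : ∀ σ : ℤ, σ = 1 ∨ σ = -1 → ∀ G : ℕ → ℝ, (∀ n ∈ Icc 1 N, |G n| ≤ 9 / 2 * L) →
      ∑ m ∈ Icc 1 M₁, (1 / (M₁ : ℝ)) *
        |∑ n ∈ Icc 1 N, G n * (lamI ((n : ℤ) + σ * (c₂ m - c₁ m)) - lamzI z ((n : ℤ) + σ * (c₂ m - c₁ m)))| ≤ Q) :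
    ∑ m ∈ Icc 1 M₁, |∑ c ∈ Icc (-(X : ℤ)) X, F (c₁ m + c) * gg z (c₂ m + c)| ≤
      M₁ * (72 * L ^ 2 * Δ + 18 * L ^ 2 * Dm + 6 * L * RR N Dm T L + 2 * Q + 6 * L) := by
  have hM0 : (0 : ℝ) < M₁ := by exact_mod_cast hM
  have hΔ0 : 0 ≤ Δ := (abs_nonneg _).trans (hΔ 1 (mem_Icc.2 ⟨le_rfl, hM⟩))
  obtain ⟨a, ha⟩ : ∃ a : ℤ, a = c₀ - X := ⟨_, rfl⟩
  obtain ⟨b, hb⟩ : ∃ b : ℤ, b = c₀ + X := ⟨_, rfl⟩
  obtain ⟨F₀, hF₀⟩ : ∃ F₀ : ℤ → ℝ, F₀ = fun k => if k = 0 then 0 else F k := ⟨_, rfl⟩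
  have hF₀1 : ∀ y, |F₀ y| ≤ 1 := by
    intro y
    rw [hF₀]
    dsimp only
    split_ifs
    · rw [abs_zero]; exact zero_le_one
    · exact hF y
  have hF₀0 : F₀ 0 = 0 := by
    rw [hF₀]
    dsimp only
    rw [if_pos rfl]
  have hG : ∀ (w : ℕ → ℝ), (∀ t, |w t| ≤ 1) → ∀ n ∈ Icc 1 N, |w n * wt n| ≤ 9 / 2 * L := by
    intro w hw n _
    rw [abs_mul, abs_of_nonneg (wt_nonneg n)]
    have := mul_le_mul (hw n) (wt_le' n) (wt_nonneg n) zero_le_one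
    linarith
  have b1 : ∀ t : ℕ, |if (t : ℤ) ∈ Icc a b then F₀ t else 0| ≤ 1 := by
    intro t
    split_ifs
    · exact hF₀1 _
    · rw [abs_zero]; exact zero_le_one
  have b2 : ∀ t : ℕ, |if -(t : ℤ) ∈ Icc a b then F₀ (-(t : ℤ)) else 0| ≤ 1 := by
    intro t
    split_ifs
    · exact hF₀1 _
    · rw [abs_zero]; exact zero_le_one
  have l1 := hlaw 1 (Or.inl rfl) (fun t => (if (t : ℤ) ∈ Icc a b then F₀ t else 0) * wt t)
    (hG (fun t : ℕ => if (t : ℤ) ∈ Icc a b then F₀ t else 0) b1)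
  have l2 := hlaw (-1) (Or.inr rfl) (fun t => (if -(t : ℤ) ∈ Icc a b then F₀ (-(t : ℤ)) else 0) * wt t)
    (hG (fun t : ℕ => if -(t : ℤ) ∈ Icc a b then F₀ (-(t : ℤ)) else 0) b2)
  rw [← mul_sum, one_div, inv_mul_le_iff₀ hM0] at l1 l2
  have hsum : ∑ m ∈ Icc 1 M₁, |∑ c ∈ Icc (-(X : ℤ)) X, F (c₁ m + c) * gg z (c₂ m + c)| ≤ ∑ m ∈ Icc 1 M₁,
      ((12 * L ^ 2 * Δ + 18 * L ^ 2 * Dm + 6 * L * RR N Dm T L + 6 * L) +
      |∑ t ∈ Icc 1 N, ((if (t : ℤ) ∈ Icc a b then F₀ t else 0) * wt t) *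
        (lamI ((t : ℤ) + 1 * (c₂ m - c₁ m)) - lamzI z ((t : ℤ) + 1 * (c₂ m - c₁ m)))| +
      |∑ t ∈ Icc 1 N, ((if -(t : ℤ) ∈ Icc a b then F₀ (-(t : ℤ)) else 0) * wt t) *
        (lamI ((t : ℤ) + -1 * (c₂ m - c₁ m)) - lamzI z ((t : ℤ) + -1 * (c₂ m - c₁ m)))|) := by
    apply sum_le_sum
    intro m hm
    have g1 := cor_mix0 hz hL hff hV hN hNX (hD m hm) (hΔ m hm) hDN hT F₀ hF₀1 hF₀0
    rw [← ha, ← hb] at g1
    have g2 := zero_val (X := X) (c₁ := c₁ m) (c₂ := c₂ m) hL hff F hF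
    have g3 : ∑ c ∈ Icc (-(X : ℤ)) X, (if c₁ m + c = 0 then 0 else F (c₁ m + c)) * gg z (c₂ m + c) =
        ∑ c ∈ Icc (-(X : ℤ)) X, F₀ (c₁ m + c) * gg z (c₂ m + c) := by
      rw [hF₀]
    rw [g3] at g2
    have g4 := abs_add_le (∑ c ∈ Icc (-(X : ℤ)) X, F (c₁ m + c) * gg z (c₂ m + c) -
      ∑ c ∈ Icc (-(X : ℤ)) X, F₀ (c₁ m + c) * gg z (c₂ m + c))
      (∑ c ∈ Icc (-(X : ℤ)) X, F₀ (c₁ m + c) * gg z (c₂ m + c))
    rw [sub_add_cancel] at g4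
    linarith
  rw [sum_add_distrib, sum_add_distrib, sum_const, Nat.card_Icc, nsmul_eq_mul, Nat.add_sub_cancel] at hsum
  have hfin : (M₁ : ℝ) * (12 * L ^ 2 * Δ) ≤ M₁ * (72 * L ^ 2 * Δ) := by
    apply mul_le_mul_of_nonneg_left _ hM0.le
    have : 0 ≤ L ^ 2 * Δ := by positivity
    linarith
  linarith

end Run7.h376.V
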