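import Pool.Agent.Run7.h285.V.Stm
import Pool.Agent.Run7.h376.G.Main
import Pool.Agent.Run7.h376.V.Cor

/-!
# Project VAR, piece GCM
-/

set_option autoImplicit false

namespace Run7.h376.V

open Finset Filter Topology Polynomial
open Run7.h285.G
open Run7.h285.V
open Run7.h376.G
open Run7.h285.S (gg)
open Run7.h376.CGS (RR evt_pow evt_logge sum_blocks aux_one aux_add aux_c)
open Pool.Agent.TH892.SW (ff)
open Pool.Agent.H373R2.T7 (lamz Vz lamI lamzI)

theorem gcm (h : Pool.Agent.Run7.h794.MK.S_LAW') {g : ℤ[X]} (hg : Gd g) : S_GCM g := by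
  obtain ⟨hd2, hlc⟩ := hg
  obtain ⟨e, he⟩ : ∃ e, e = g.natDegree - 1 := ⟨_, rfl⟩
  have he1 : 1 ≤ e := by omega
  have hde : g.natDegree = e + 1 := by omega
  intro U C D
  obtain ⟨C', B₀, h1⟩ := law_poly h e (D + 1) (U + C + 8)
  refine ⟨B₀ + 2, fun E hE => ?_⟩
  obtain ⟨N₀, h2⟩ := h1 E
  obtain ⟨N1, hsq⟩ := Pool.Agent.TH892.SW.sq_ff E
  obtain ⟨N2, hVz⟩ := Pool.Agent.H373R2.T7.Vz_inv_small E
  obtain ⟨q, hq⟩ : ∃ q, q = 2 * C + D + 2 * U + 20 := ⟨_, rfl⟩
  obtain ⟨K, hK⟩ : ∃ K, K = C + U + 8 := ⟨_, rfl⟩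
  obtain ⟨nn, hnn⟩ : ∃ nn, nn = q * (e + 1) + D * (e + 1) + 2 * U + 2 * C + D + C' + 100 := ⟨_, rfl⟩
  obtain ⟨X₁, hX₁⟩ := eventually_atTop.1 ((evt_pow nn).and
    ((evt_logge 100).and ((evt_logge (2 ^ B₀)).and ((evt_logge (2 ^ C')).and (evt_logge (kg g * 4 ^ (e + 1)))))))
  refine ⟨K * e + C + C' + 6, max X₁ (max N₀ (max N1 (max N2 1))), fun X hX m₀ M i j hij hi hj hM hmM F hF => ?_⟩
  simp only [max_le_iff] at hX
  obtain ⟨hXa, hXb, hXc, hXd, hXe⟩ := hX
  obtain ⟨hpow, hL, hLB, hLC, hLk⟩ := hX₁ X hXa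
  obtain ⟨L, hLdef⟩ : ∃ L, L = Real.log (X : ℝ) := ⟨_, rfl⟩
  rw [← hLdef] at hpow hL hLB hLC hLk hi hj hM hmM
  rw [← he] at hM
  rw [hde] at hmM
  have hXr : (1 : ℝ) ≤ X := by exact_mod_cast hXe
  have hX0 : (0 : ℝ) < X := by linarith
  have hL0 : 0 < L := by linarith
  have hL1 : 1 ≤ L := by linarith
  have hLp : ∀ n, 0 < L ^ n := fun n => by positivity
  have hkg := kg_one g
  have h4e : (1 : ℝ) ≤ 4 ^ (e + 1) := one_le_pow₀ (by norm_num)
  have h2e4 : (2 : ℝ) ^ (e + 1) ≤ 4 ^ (e + 1) := pow_le_pow_left₀ (by norm_num) (by norm_num) _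
  have hLkg : kg g ≤ L := (le_mul_of_one_le_right (by linarith) h4e).trans hLk
  have hL4 : (4 : ℝ) ^ (e + 1) ≤ L := (le_mul_of_one_le_left (by positivity) hkg).trans hLk
  have hL2e : (2 : ℝ) ^ e ≤ L := by
    refine le_trans ?_ (h2e4.trans hL4)
    exact pow_le_pow_right₀ (by norm_num) (by omega)
  -- the third root
  obtain ⟨Y, hY⟩ : ∃ Y, Y = (X : ℝ) ^ (1 / 3 : ℝ) := ⟨_, rfl⟩
  have hY3 : Y ^ 3 = X := by
    rw [hY, ← Real.rpow_natCast, ← Real.rpow_mul hX0.le]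
    norm_num
  have hpow' : L ^ nn ≤ Y := by
    refine hpow.trans ?_
    rw [hY]
    exact Real.rpow_le_rpow_of_exponent_le hXr (by norm_num)
  have hYL : ∀ n, n ≤ nn → L ^ n ≤ Y := fun n hn => (pow_le_pow_right₀ hL1 hn).trans hpow'
  have hY1 : 1 ≤ Y := by simpa using hYL 0 (Nat.zero_le _)
  have hY0 : 0 < Y := by linarith
  have hYX : Y ≤ X := by rw [← hY3]; exact le_self_pow₀ hY1 (by norm_num)
  have hXL : ∀ n, n ≤ nn → L ^ n ≤ X := fun n hn => (hYL n hn).trans hYX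
  rw [← hY] at hM
  have hq1 : q ≤ q * (e + 1) := Nat.le_mul_of_pos_right q (by omega)
  have hM0 : (0 : ℝ) ≤ M := Nat.cast_nonneg _
  have hMq : L ^ q ≤ M := by
    rw [← pow_le_pow_iff_left₀ (hLp q).le hM0 (by omega : e ≠ 0)]
    calc (L ^ q) ^ e = L ^ (q * e) := by rw [pow_mul]
      _ ≤ Y := hYL _ (by
        have : q * e ≤ q * (e + 1) := Nat.mul_le_mul_left q (by omega)
        omega)
      _ ≤ Y * L ^ (K * e + C + C' + 6) := le_mul_of_one_le_right hY0.le (one_le_pow₀ hL1)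
      _ ≤ _ := hM
  -- the range
  obtain ⟨J, hJ⟩ : ∃ J, J = max i j := ⟨_, rfl⟩
  have hiJ : i ≤ J := by rw [hJ]; exact le_max_left _ _
  have hjJ : j ≤ J := by rw [hJ]; exact le_max_right _ _
  have hJL : (J : ℝ) ≤ L ^ D := by
    rw [hJ]
    push_cast
    exact max_le hi hj
  obtain ⟨R, hR⟩ : ∃ R : ℝ, R = (m₀ : ℝ) + M + J := ⟨_, rfl⟩
  have hJ0 : (0 : ℝ) ≤ J := Nat.cast_nonneg _
  have hm0 : (0 : ℝ) ≤ m₀ := Nat.cast_nonneg _
  have hMR : (M : ℝ) ≤ R := by rw [hR]; linarith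
  have hR1 : 1 ≤ R := (one_le_pow₀ hL1).trans (hMq.trans hMR)
  have hR0 : 0 < R := by linarith
  have hXC : (X : ℝ) ≤ X * L ^ C := le_mul_of_one_le_right hX0.le (one_le_pow₀ hL1)
  have hRd : R ^ (e + 1) ≤ 2 ^ (e + 1) * (X * L ^ C) := by
    rw [hR]
    refine (add_pow_le (by positivity) hJ0 (e + 1)).trans ?_
    have a1 : (J : ℝ) ^ (e + 1) ≤ X * L ^ C := by
      calc (J : ℝ) ^ (e + 1) ≤ (L ^ D) ^ (e + 1) := pow_le_pow_left₀ hJ0 hJL _
        _ = L ^ (D * (e + 1)) := by rw [pow_mul]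
        _ ≤ X := hXL _ (by omega)
        _ ≤ _ := hXC
    rw [Nat.add_sub_cancel, pow_succ (2 : ℝ) e]
    have a2 : (0 : ℝ) < 2 ^ e := by positivity
    calc (2 : ℝ) ^ e * (((m₀ : ℝ) + M) ^ (e + 1) + (J : ℝ) ^ (e + 1)) ≤ 2 ^ e * (X * L ^ C + X * L ^ C) := by
          apply mul_le_mul_of_nonneg_left _ a2.le
          linarith
      _ = _ := by ring
  have hS1 : kg g * (2 * R) ^ (e + 1) ≤ X * L ^ (C + 1) := by
    calc kg g * (2 * R) ^ (e + 1) = kg g * 2 ^ (e + 1) * R ^ (e + 1) := by rw [mul_pow]; ring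
      _ ≤ kg g * 2 ^ (e + 1) * (2 ^ (e + 1) * (X * L ^ C)) := by
        apply mul_le_mul_of_nonneg_left hRd
        positivity
      _ = (kg g * 4 ^ (e + 1)) * (X * L ^ C) := by
        have : (4 : ℝ) ^ (e + 1) = 2 ^ (e + 1) * 2 ^ (e + 1) := by
          rw [← mul_pow]
          norm_num
        rw [this]
        ring
      _ ≤ L * (X * L ^ C) := mul_le_mul_of_nonneg_right hLk (by positivity)
      _ = _ := by rw [pow_succ]; ring
  have hS2 : kg g * (2 * R) ^ e * R ≤ X * L ^ (C + 1) := by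
    refine le_trans ?_ hS1
    rw [pow_succ, ← mul_assoc]
    apply mul_le_mul_of_nonneg_left _ (by positivity)
    linarith
  have hS3 : kg g * (2 * R) ^ e ≤ X * L ^ (C + 1) / L ^ q := by
    rw [le_div_iff₀ (hLp _)]
    refine le_trans ?_ hS2
    exact mul_le_mul_of_nonneg_left (hMq.trans hMR) (by positivity)
  have hRe : R ^ e ≤ X := by
    have a1 : R ^ e * L ^ q ≤ X * L ^ q := by
      calc R ^ e * L ^ q ≤ R ^ e * R := mul_le_mul_of_nonneg_left (hMq.trans hMR) (by positivity)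
        _ = R ^ (e + 1) := (pow_succ _ _).symm
        _ ≤ 2 ^ (e + 1) * (X * L ^ C) := hRd
        _ ≤ L * (X * L ^ C) := mul_le_mul_of_nonneg_right (h2e4.trans hL4) (by positivity)
        _ = X * L ^ (C + 1) := by rw [pow_succ]; ring
        _ ≤ X * L ^ q := mul_le_mul_of_nonneg_left (pow_le_pow_right₀ hL1 (by omega)) hX0.le
    exact le_of_mul_le_mul_right a1 (hLp q)
  -- the block length
  obtain ⟨M₁, hM₁⟩ : ∃ M₁, M₁ = ⌊(M : ℝ) / L ^ K⌋₊ := ⟨_, rfl⟩
  have hM₁b : (M₁ : ℝ) ≤ M / L ^ K := by rw [hM₁]; exact Nat.floor_le (by positivity)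
  have hM₁a' : (M₁ : ℝ) ≤ M := hM₁b.trans (div_le_self hM0 (one_le_pow₀ hL1))
  have hM₁a : M₁ ≤ M := by exact_mod_cast hM₁a'
  have hMK : 2 ≤ (M : ℝ) / L ^ K := by
    rw [le_div_iff₀ (hLp _)]
    calc 2 * L ^ K ≤ L * L ^ K := mul_le_mul_of_nonneg_right (by linarith) (hLp _).le
      _ = L ^ (K + 1) := (pow_succ' L K).symm
      _ ≤ L ^ q := pow_le_pow_right₀ hL1 (by omega)
      _ ≤ _ := hMq
  have hM₁c : (M : ℝ) / (2 * L ^ K) ≤ M₁ := by
    have f1 := Nat.lt_floor_add_one ((M : ℝ) / L ^ K)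
    rw [← hM₁] at f1
    have f2 : (M : ℝ) / (2 * L ^ K) = (M / L ^ K) / 2 := by
      rw [div_div, mul_comm]
    rw [f2]
    linarith
  have hM₁r : (1 : ℝ) ≤ M₁ := by
    have f2 : (M : ℝ) / (2 * L ^ K) = (M / L ^ K) / 2 := by
      rw [div_div, mul_comm]
    rw [f2] at hM₁c
    linarith
  have hM₁1 : 1 ≤ M₁ := by exact_mod_cast hM₁r
  -- the modulus
  obtain ⟨N, hN⟩ : ∃ N, N = ⌊(X : ℝ) * L ^ (C + 3)⌋₊ + 1 := ⟨_, rfl⟩
  have hNlo : (X : ℝ) * L ^ (C + 3) ≤ N := by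
    rw [hN]; push_cast; exact (Nat.lt_floor_add_one _).le
  have hXX : (X : ℝ) ≤ X * L ^ (C + 3) := le_mul_of_one_le_right hX0.le (one_le_pow₀ hL1)
  have hNup : (N : ℝ) ≤ 2 * (X * L ^ (C + 3)) := by
    rw [hN]; push_cast
    have := Nat.floor_le (a := (X : ℝ) * L ^ (C + 3)) (by positivity)
    linarith
  have hXN : (X : ℝ) ≤ N := hXX.trans hNlo
  have hXN' : X ≤ N := by exact_mod_cast hXN
  have hN0 : (0 : ℝ) < N := by linarith
  have hlogN : L ≤ Real.log N := by rw [hLdef]; exact Real.log_le_log hX0 hXN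
  have hlog2N : Real.log ((2 * N : ℕ) : ℝ) ≤ 2 * L := by
    have a1 : ((2 * N : ℕ) : ℝ) ≤ (X : ℝ) * X := by
      push_cast
      have a2 : 4 * L ^ (C + 3) ≤ X := by
        have a3 : 4 * L ^ (C + 3) ≤ L ^ (C + 4) := by
          rw [pow_succ L (C + 3)]
          have := hLp (C + 3)
          exact aux_c this.le (by linarith)
        exact a3.trans (hXL _ (by omega))
      calc 2 * (N : ℝ) ≤ X * (4 * L ^ (C + 3)) := by linarith
        _ ≤ X * X := mul_le_mul_of_nonneg_left a2 hX0.le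
    have a3 : Real.log ((2 * N : ℕ) : ℝ) ≤ Real.log ((X : ℝ) * X) := by
      apply Real.log_le_log _ a1
      push_cast
      linarith
    rw [Real.log_mul hX0.ne' hX0.ne', ← hLdef] at a3
    linarith
  have hlogN2 : Real.log N ≤ 2 * L := by
    refine le_trans (Real.log_le_log hN0 ?_) hlog2N
    push_cast
    linarith
  have hlogN0 : 0 < Real.log N := by linarith
  -- the sieve level
  obtain ⟨z, hz⟩ : ∃ z, z = ⌊L ^ E⌋₊ := ⟨_, rfl⟩
  have hz1 : 1 ≤ z := by
    rw [hz, Nat.le_floor_iff (by positivity)]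
    simpa using one_le_pow₀ hL1
  have hzE : (z : ℝ) ≤ L ^ E := by rw [hz]; exact Nat.floor_le (by positivity)
  have hzE' : (z : ℝ) ≤ Real.log N ^ E := hzE.trans (pow_le_pow_left₀ hL0.le hlogN _)
  have hzB : Real.log N ^ B₀ ≤ z := by
    have a1 : Real.log N ^ B₀ ≤ (2 * L) ^ B₀ := pow_le_pow_left₀ hlogN0.le hlogN2 _
    have a2 : (2 * L) ^ B₀ ≤ L ^ (B₀ + 1) := by
      rw [mul_pow, pow_succ, mul_comm]
      exact mul_le_mul_of_nonneg_left hLB (hLp _).le
    have a3 : L ^ (B₀ + 1) + 1 ≤ L ^ E := by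
      have a4 : L ^ (B₀ + 2) ≤ L ^ E := pow_le_pow_right₀ hL1 hE
      have a5 : L ^ (B₀ + 2) = L ^ (B₀ + 1) * L := pow_succ _ _
      have a6 : 1 ≤ L ^ (B₀ + 1) := one_le_pow₀ hL1
      exact (aux_add a6 (by linarith)).trans (a5 ▸ a4)
    have a4 := Nat.lt_floor_add_one (L ^ E)
    rw [← hz] at a4
    linarith
  have hff := (hsq X hXc z hz1 (by rw [← hLdef]; exact hzE)).1
  rw [← hLdef] at hff
  have hVinv := hVz X hXd z hz1 (by rw [← hLdef]; exact hzE)
  rw [← hLdef] at hVinv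
  -- the length of the polynomial sequence
  have hNH : (N : ℝ) ^ (1 / 3 : ℝ) * Real.log N ^ C' ≤ (M₁ : ℝ) ^ e := by
    have a1 : (N : ℝ) ^ (1 / 3 : ℝ) ≤ 2 * (Y * L ^ (C + 3)) := by
      have b1 : (N : ℝ) ≤ (2 * (Y * L ^ (C + 3))) ^ 3 := by
        have b2 : (2 * (Y * L ^ (C + 3))) ^ 3 = 8 * (X * (L ^ (C + 3)) ^ 3) := by
          rw [← hY3]; ring
        rw [b2]
        have b3 : L ^ (C + 3) ≤ (L ^ (C + 3)) ^ 3 := le_self_pow₀ (one_le_pow₀ hL1) (by norm_num)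
        have b5 := mul_le_mul_of_nonneg_left b3 hX0.le
        have b6 : 0 ≤ (X : ℝ) * (L ^ (C + 3)) ^ 3 := by positivity
        linarith
      calc (N : ℝ) ^ (1 / 3 : ℝ) ≤ ((2 * (Y * L ^ (C + 3))) ^ 3) ^ (1 / 3 : ℝ) :=
            Real.rpow_le_rpow hN0.le b1 (by norm_num)
        _ = 2 * (Y * L ^ (C + 3)) := by
          rw [← Real.rpow_natCast, ← Real.rpow_mul (by positivity)]
          norm_num
    have a2 : Real.log N ^ C' ≤ L ^ (C' + 1) := by
      refine (pow_le_pow_left₀ hlogN0.le hlogN2 _).trans ?_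
      rw [mul_pow, pow_succ, mul_comm]
      exact mul_le_mul_of_nonneg_left hLC (hLp _).le
    have a3 : Y * L ^ (C + C' + 5) ≤ ((M : ℝ) / (2 * L ^ K)) ^ e := by
      rw [div_pow, le_div_iff₀ (by positivity)]
      refine le_trans ?_ hM
      have b1 : (2 * L ^ K) ^ e ≤ L ^ (K * e + 1) := by
        rw [mul_pow, ← pow_mul, pow_succ, mul_comm]
        exact mul_le_mul_of_nonneg_left hL2e (hLp _).le
      calc Y * L ^ (C + C' + 5) * (2 * L ^ K) ^ e ≤ Y * L ^ (C + C' + 5) * L ^ (K * e + 1) :=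
            mul_le_mul_of_nonneg_left b1 (by positivity)
        _ = Y * L ^ (K * e + C + C' + 6) := by
          rw [mul_assoc, ← pow_add]
          congr 2
          ring
    calc (N : ℝ) ^ (1 / 3 : ℝ) * Real.log N ^ C' ≤ 2 * (Y * L ^ (C + 3)) * L ^ (C' + 1) :=
          mul_le_mul a1 a2 (by positivity) (by positivity)
      _ = 2 * (Y * L ^ (C + C' + 4)) := by
          have : L ^ (C + C' + 4) = L ^ (C + 3) * L ^ (C' + 1) := by rw [← pow_add]; congr 1; omega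
          rw [this]; ring
      _ ≤ L * (Y * L ^ (C + C' + 4)) := mul_le_mul_of_nonneg_right (by linarith) (by positivity)
      _ = Y * L ^ (C + C' + 5) := by rw [pow_succ L (C + C' + 4)]; ring
      _ ≤ _ := a3
      _ ≤ _ := pow_le_pow_left₀ (by positivity) hM₁c e
  have hHN : (M₁ : ℝ) ^ e ≤ N := by
    calc (M₁ : ℝ) ^ e ≤ R ^ e := pow_le_pow_left₀ (by linarith) (hM₁a'.trans hMR) e
      _ ≤ X := hRe
      _ ≤ N := hXN
  -- other conditions
  have hi0 : (0 : ℝ) ≤ i := Nat.cast_nonneg _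
  have hj0 : (0 : ℝ) ≤ j := Nat.cast_nonneg _
  -- the number of the blocks
  obtain ⟨A, hA⟩ : ∃ A, A = M / M₁ + 1 := ⟨_, rfl⟩
  have hAM : M ≤ A * M₁ := by
    have a1 := Nat.div_add_mod M M₁
    have a2 := Nat.mod_lt M hM₁1
    rw [hA, add_mul, one_mul, mul_comm (M / M₁)]
    omega
  have hAM2 : (A : ℝ) * M₁ ≤ 2 * M := by
    have a1 : A * M₁ ≤ 2 * M := by
      have := Nat.div_mul_le_self M M₁
      rw [hA, add_mul, one_mul]
      omega
    exact_mod_cast a1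
  have hDN : X * L ^ (C + D + 2) / L ^ q ≤ (N : ℝ) := by
    refine le_trans ?_ hXN
    rw [div_le_iff₀ (hLp _)]
    exact mul_le_mul_of_nonneg_left (pow_le_pow_right₀ hL1 (by omega)) hX0.le
  have hT : X * L ^ (C + D + 2) / L ^ q + 4 ≤ 2 * X / L ^ (U + 6) := by
    have a1 : (X : ℝ) * L ^ (C + D + 2) / L ^ q ≤ X / L ^ (U + 6) := by
      rw [div_le_div_iff₀ (hLp _) (hLp _), mul_assoc, ← pow_add]
      exact mul_le_mul_of_nonneg_left (pow_le_pow_right₀ hL1 (by omega)) hX0.le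
    have a2 : 4 ≤ (X : ℝ) / L ^ (U + 6) := by
      rw [le_div_iff₀ (hLp _)]
      calc 4 * L ^ (U + 6) ≤ L * L ^ (U + 6) := mul_le_mul_of_nonneg_right (by linarith) (hLp _).le
        _ = L ^ (U + 7) := (pow_succ' L (U + 6)).symm
        _ ≤ X := hXL _ (by omega)
    have a3 : 2 * (X : ℝ) / L ^ (U + 6) = X / L ^ (U + 6) + X / L ^ (U + 6) := by ring
    linarith
  -- one block
  have hblk : ∀ a ∈ range A, ∑ m ∈ Ioc (m₀ + a * M₁) (m₀ + a * M₁ + M₁), |mc g F (gg z) X (m + i) (m + j)| ≤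
      M₁ * (1001 * (X / L ^ (U + 4))) := by
    intro a ha
    rw [mem_range] at ha
    obtain ⟨s, hs⟩ : ∃ s, s = m₀ + a * M₁ := ⟨_, rfl⟩
    rw [← hs]
    have hsM : ((s + M₁ : ℕ) : ℝ) + J ≤ 2 * R := by
      have a1 : s + M₁ ≤ m₀ + 2 * M := by
        have a2 : a * M₁ ≤ M / M₁ * M₁ := Nat.mul_le_mul_right _ (by omega)
        have := Nat.div_mul_le_self M M₁
        rw [hs]
        omega
      have a2 : ((s + M₁ : ℕ) : ℝ) ≤ m₀ + 2 * M := by exact_mod_cast a1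
      rw [hR]
      linarith
    have hs0 : (0 : ℝ) ≤ s := Nat.cast_nonneg _
    -- the arguments
    have harg : ∀ m : ℕ, m ≤ M₁ → ∀ l : ℕ, l ≤ J → |((((s + m + l : ℕ) : ℤ) : ℤ) : ℝ)| ≤ 2 * R := by
      intro m hm l hl
      rw [Int.cast_natCast, Nat.abs_cast]
      have a1 : ((s + m + l : ℕ) : ℝ) ≤ ((s + M₁ + J : ℕ) : ℝ) := by exact_mod_cast (by omega)
      push_cast at a1 hsM ⊢
      linarith
    have h2R : 1 ≤ 2 * R := by linarith
    obtain ⟨c₁, hc₁⟩ : ∃ c₁ : ℕ → ℤ, c₁ = fun m => g.eval ((s + m + i : ℕ) : ℤ) := ⟨_, rfl⟩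
    obtain ⟨c₂, hc₂⟩ : ∃ c₂ : ℕ → ℤ, c₂ = fun m => g.eval ((s + m + j : ℕ) : ℤ) := ⟨_, rfl⟩
    have hDsh : ∀ m ∈ Icc 1 M₁, |((c₂ m - c₁ m : ℤ) : ℝ)| ≤ X * L ^ (C + D + 2) / L ^ q := by
      intro m hm
      rw [mem_Icc] at hm
      rw [hc₁, hc₂]
      have a1 := eval_sub_le g h2R (harg m hm.2 i hiJ) (harg m hm.2 j hjJ)
      rw [← he] at a1
      refine a1.trans ?_
      have a2 : |((((s + m + j : ℕ) : ℤ) : ℤ) : ℝ) - ((((s + m + i : ℕ) : ℤ) : ℤ) : ℝ)| ≤ L ^ D := by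
        rw [Int.cast_natCast, Int.cast_natCast]
        push_cast
        rw [abs_le]
        constructor <;> linarith
      have a3 : (0 : ℝ) ≤ (2 * R) ^ e := by positivity
      calc kg g * |((((s + m + j : ℕ) : ℤ) : ℤ) : ℝ) - ((((s + m + i : ℕ) : ℤ) : ℤ) : ℝ)| * (2 * R) ^ e ≤
          kg g * L ^ D * (2 * R) ^ e := by
            apply mul_le_mul_of_nonneg_right _ a3
            exact mul_le_mul_of_nonneg_left a2 (by linarith)
        _ = L ^ D * (kg g * (2 * R) ^ e) := by ring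
        _ ≤ L ^ D * (X * L ^ (C + 1) / L ^ q) := mul_le_mul_of_nonneg_left hS3 (hLp _).le
        _ = X * L ^ (C + D + 1) / L ^ q := by
          have : L ^ (C + D + 1) = L ^ D * L ^ (C + 1) := by rw [← pow_add]; congr 1; omega
          rw [this]
          ring
        _ ≤ X * L ^ (C + D + 2) / L ^ q := by
          apply div_le_div_of_nonneg_right _ (hLp _).le
          exact mul_le_mul_of_nonneg_left (pow_le_pow_right₀ hL1 (by omega)) hX0.le
    have hΔ : ∀ m ∈ Icc 1 M₁, |((c₁ m - g.eval ((s + 0 + i : ℕ) : ℤ) : ℤ) : ℝ)| ≤ X * L ^ (C + 2) / L ^ (C + U + 8) := by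
      intro m hm
      rw [mem_Icc] at hm
      rw [hc₁]
      have a1 := eval_sub_le g h2R (harg 0 (Nat.zero_le _) i hiJ) (harg m hm.2 i hiJ)
      rw [← he] at a1
      refine a1.trans ?_
      have a2 : |((((s + m + i : ℕ) : ℤ) : ℤ) : ℝ) - ((((s + 0 + i : ℕ) : ℤ) : ℤ) : ℝ)| ≤ R / L ^ K := by
        rw [Int.cast_natCast, Int.cast_natCast]
        have b0 : (m : ℝ) ≤ M₁ := by exact_mod_cast hm.2
        have b1 : (0 : ℝ) ≤ m := Nat.cast_nonneg _
        have b2 : (M : ℝ) / L ^ K ≤ R / L ^ K := div_le_div_of_nonneg_right hMR (hLp _).le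
        push_cast
        rw [abs_of_nonneg (by linarith)]
        linarith
      have a3 : (0 : ℝ) ≤ (2 * R) ^ e := by positivity
      calc kg g * |((((s + m + i : ℕ) : ℤ) : ℤ) : ℝ) - ((((s + 0 + i : ℕ) : ℤ) : ℤ) : ℝ)| * (2 * R) ^ e ≤
          kg g * (R / L ^ K) * (2 * R) ^ e := by
            apply mul_le_mul_of_nonneg_right _ a3
            exact mul_le_mul_of_nonneg_left a2 (by linarith)
        _ = kg g * (2 * R) ^ e * R / L ^ K := by ring
        _ ≤ X * L ^ (C + 1) / L ^ K := div_le_div_of_nonneg_right hS2 (hLp _).le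
        _ ≤ X * L ^ (C + 2) / L ^ (C + U + 8) := by
          rw [← hK]
          apply div_le_div_of_nonneg_right _ (hLp _).le
          exact mul_le_mul_of_nonneg_left (pow_le_pow_right₀ hL1 (by omega)) hX0.le
    have hNX : |g.eval ((s + 0 + i : ℕ) : ℤ)| + X ≤ N := by
      have a1 := eval_le g h2R (harg 0 (Nat.zero_le _) i hiJ)
      rw [hde] at a1
      have a2 := a1.trans hS1
      have a3 : (X : ℝ) * L ^ (C + 1) + X ≤ X * L ^ (C + 3) := by
        have b1 : L ^ (C + 1) + 1 ≤ L ^ (C + 3) := by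
          have b2 : L ^ (C + 1) + 1 ≤ L ^ (C + 1) * L := aux_add (one_le_pow₀ hL1) (by linarith)
          rw [← pow_succ] at b2
          exact b2.trans (pow_le_pow_right₀ hL1 (by omega))
        have b3 := mul_le_mul_of_nonneg_left b1 hX0.le
        linarith
      have a4 : |((g.eval ((s + 0 + i : ℕ) : ℤ) : ℤ) : ℝ)| + X ≤ N := by linarith
      rw [← Int.cast_abs] at a4
      exact_mod_cast a4
    have hne : (((s + i : ℕ) : ℤ)) ≠ ((s + j : ℕ) : ℤ) := by
      intro h0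
      have : s + i = s + j := by exact_mod_cast h0
      omega
    have hdeg : ∀ σ : ℤ, (σ = 1 ∨ σ = -1) → (Polynomial.C σ * dp g ((s + i : ℕ) : ℤ) ((s + j : ℕ) : ℤ)).natDegree = e := by
      intro σ hσ
      have hσ0 : σ ≠ 0 := by rcases hσ with h | h <;> rw [h] <;> norm_num
      rw [natDegree_C_mul hσ0, dp_natDegree g _ _ (by omega) hne, he]
    have heval : ∀ (σ : ℤ) (m : ℕ), (Polynomial.C σ * dp g ((s + i : ℕ) : ℤ) ((s + j : ℕ) : ℤ)).eval (m : ℤ) =
        σ * (c₂ m - c₁ m) := by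
      intro σ m
      rw [eval_mul, eval_C, dp_eval, hc₁, hc₂]
      congr 3 <;> push_cast <;> ring
    have hmain := block_mix (z := z) (N := N) (X := X) (M₁ := M₁) (g.eval ((s + 0 + i : ℕ) : ℤ)) c₁ c₂ hz1 hL1 hff hVinv
      (Q := 9 / 2 * L * (N / Real.log N ^ (U + C + 8)))
      (by have : (2 : ℝ) ≤ N := by
            have a1 := hXL 1 (by omega)
            rw [pow_one] at a1
            linarith
          exact_mod_cast this) hM₁1 hNX hDsh hΔ hDN hT F hF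
      (by
        intro σ hσ G hG
        have hσa : |(σ : ℝ)| = 1 := by rcases hσ with h | h <;> rw [h] <;> norm_num
        have b1 := h2 N (hXb.trans hXN') z hzB hzE' (Polynomial.C σ * dp g ((s + i : ℕ) : ℤ) ((s + j : ℕ) : ℤ))
          (by rw [hdeg σ hσ]; exact he1) (by rw [hdeg σ hσ]) (by
            rw [leadingCoeff, hdeg σ hσ, coeff_C_mul, he, dp_coeff g _ _ (by omega)]
            push_cast
            rw [abs_mul, hσa, one_mul, abs_mul, abs_mul, Nat.abs_cast]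
            have c1 := kg_lead g
            have c2 : |(s : ℝ) + j - (s + i)| ≤ L ^ D := by
              rw [abs_le]
              constructor <;> linarith
            calc (g.natDegree : ℝ) * |((g.leadingCoeff : ℤ) : ℝ)| * |(s : ℝ) + j - (s + i)| ≤ kg g * L ^ D :=
                  mul_le_mul c1 c2 (abs_nonneg _) (by linarith)
              _ ≤ L * L ^ D := mul_le_mul_of_nonneg_right hLkg (hLp _).le
              _ = L ^ (D + 1) := (pow_succ' L D).symm
              _ ≤ _ := pow_le_pow_left₀ hL0.le hlogN _)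
          M₁ (by rw [hdeg σ hσ]; exact hNH) (by rw [hdeg σ hσ]; exact hHN) (by
            intro m hm
            rw [heval σ m, Int.cast_mul, abs_mul, hσa, one_mul]
            exact (hDsh m hm).trans hDN)
          (9 / 2 * L) (by linarith) G hG
        simp only [heval] at b1
        exact b1)
    have hcor : ∑ m ∈ Ioc s (s + M₁), |mc g F (gg z) X (m + i) (m + j)| =
        ∑ m ∈ Icc 1 M₁, |∑ c ∈ Icc (-(X : ℤ)) X, F (c₁ m + c) * gg z (c₂ m + c)| := by
      rw [sum_shift]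
      apply sum_congr rfl
      intro m _
      unfold mc
      rw [hc₁, hc₂]
    rw [hcor]
    refine hmain.trans ?_
    apply mul_le_mul_of_nonneg_left _ (by linarith)
    have f1 := final_g (X := X) (L := L) (N := N) (U := U) (C := C) (D := D) (q := q) (by linarith) hXr
      (by omega) (hXL _ (by omega)) hNup hlog2N hlogN
    have f2 : 6 * L ≤ X / L ^ (U + 4) := by
      rw [le_div_iff₀ (hLp _)]
      calc 6 * L * L ^ (U + 4) ≤ L * L * L ^ (U + 4) := by
            apply mul_le_mul_of_nonneg_right _ (hLp _).le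
            exact mul_le_mul_of_nonneg_right (by linarith) hL0.le
        _ = L ^ (U + 6) := by ring
        _ ≤ X := hXL _ (by omega)
    linarith
  -- the end
  have hz' : ⌊Real.log (X : ℝ) ^ E⌋₊ = z := by rw [hz, hLdef]
  rw [hz', ← hLdef]
  calc ∑ m ∈ Ioc m₀ (m₀ + M), |mc g F (gg z) X (m + i) (m + j)|
      ≤ ∑ m ∈ Ioc m₀ (m₀ + A * M₁), |mc g F (gg z) X (m + i) (m + j)| := by
        apply sum_le_sum_of_subset_of_nonneg
        · apply Ioc_subset_Ioc_right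
          omega
        · intro m _ _
          exact abs_nonneg _
    _ = ∑ a ∈ range A, ∑ m ∈ Ioc (m₀ + a * M₁) (m₀ + a * M₁ + M₁), |mc g F (gg z) X (m + i) (m + j)| :=
        sum_blocks _ _ _ _
    _ ≤ ∑ _a ∈ range A, M₁ * (1001 * (X / L ^ (U + 4))) := sum_le_sum hblk
    _ = A * M₁ * (1001 * (X / L ^ (U + 4))) := by
        rw [sum_const, card_range, nsmul_eq_mul]; ring
    _ ≤ 2 * M * (1001 * (X / L ^ (U + 4))) := mul_le_mul_of_nonneg_right hAM2 (by positivity)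
    _ ≤ X * M / L ^ U := by
        rw [pow_add L U 4]
        have a1 : (2002 : ℝ) ≤ L ^ 4 := by
          calc (2002 : ℝ) ≤ 100 ^ 4 := by norm_num
            _ ≤ L ^ 4 := pow_le_pow_left₀ (by norm_num) hL 4
        rw [le_div_iff₀ (hLp _)]
        have a2 : 2 * (M : ℝ) * (1001 * (X / (L ^ U * L ^ 4))) * L ^ U = X * M * (2002 / L ^ 4) := by
          field_simp
          ring
        rw [a2]
        have a3 : 2002 / L ^ 4 ≤ 1 := by
          rw [div_le_one (hLp _)]; exact a1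
        have a4 : (0 : ℝ) ≤ X * M := by positivity
        exact mul_le_of_le_one_right a4 a3

end Run7.h376.V
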